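import Pool.Agent.Helper59.RG.G1
import Pool.Agent.Helper16.RC.Cert
import Pool.Agent.Helper91.RA.FIN
import Pool.Agent.Helper91.RG.BD

/-!
# Project RG: rows G2 and FIN
-/

set_option autoImplicit false

open MeasureTheory Complex
open scoped ComplexConjugate
open Pool.Agent.Helper1.RG
open Pool.Agent.Helper16.RC (J)

namespace Pool.Agent.Helper59.RG

theorem ev_norm (x : ℂ) (χ : Om) : ‖ev x χ‖ = 1 := Circle.norm_coe _

theorem ev_integrable (P : Measure Om) [IsFiniteMeasure P] (x : ℂ) : Integrable (ev x) P :=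
  Integrable.of_bound (meas_ev x).aestronglyMeasurable 1
    (Filter.Eventually.of_forall fun χ => (ev_norm x χ).le)

theorem g2_core (hG0 : ST_G0) (hPOS : Pool.Agent.Helper16.RC.ST_POS) (F : ℝ → ℝ)
    (P : Measure Om) (hP : IsProbabilityMeasure P) (hI : InvC P)
    (hE : ∀ z, ∫ χ, ev z χ ∂P = ((F (normSq z) : ℝ) : ℂ)) :
    0 ≤ 699 / 10 + 228 * F 1 + 88 * F 2 + 208 * F 4 + 52 * F 5 + 86 * F 8 := by
  obtain ⟨r, hr, hr0, hr1⟩ := st_G1 P hP hI
  have hGm : MeasurableSet GG := st_MF.2
  have hJi : ∀ a : ℝ, Integrable (fun χ => J (a * r χ)) (P.restrict GG) := by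
    intro a
    refine Integrable.of_bound (C := 1) ?_ (Filter.Eventually.of_forall fun χ => ?_)
    · exact (J_continuous.measurable.comp (hr.const_mul a)).aestronglyMeasurable
    · rw [Real.norm_eq_abs]
      exact J_abs_le _
  have hval : ∀ y ∈ ZI, y ≠ 0 → F (normSq y) = ∫ χ in GG, J (‖y‖ * r χ) ∂P := by
    intro y hy hy0
    rw [← hr1 y hy]
    have h1 := integral_add_compl hGm (ev_integrable P y)
    rw [hG0 P hP hI y hy hy0, add_zero, hE] at h1
    have h2 := congrArg Complex.re h1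
    rw [ofReal_re] at h2
    rw [← h2]
    exact (integral_re (ev_integrable P y).integrableOn :
      ∫ χ in GG, RCLike.re (ev y χ) ∂P = _).symm
  have v1 := hval 1 ⟨1, 0, by simp⟩ one_ne_zero
  have v2 := hval (1 + I) ⟨1, 1, by simp⟩ (by
    intro h
    have := congrArg Complex.re h
    simp at this)
  have v4 := hval 2 ⟨2, 0, by simp⟩ two_ne_zero
  have v5 := hval (2 + I) ⟨2, 1, by simp⟩ (by
    intro h
    have := congrArg Complex.re h
    simp at this)
  have v8 := hval (2 + 2 * I) ⟨2, 2, by simp⟩ (by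
    intro h
    have := congrArg Complex.re h
    simp at this)
  have n1 : normSq (1 : ℂ) = 1 := by simp
  have n2 : normSq (1 + I) = 2 := by
    rw [normSq_apply]
    simp
    norm_num
  have n4 : normSq (2 : ℂ) = 4 := by
    rw [normSq_apply]
    simp
    norm_num
  have n5 : normSq (2 + I) = 5 := by
    rw [normSq_apply]
    simp
    norm_num
  have n8 : normSq (2 + 2 * I) = 8 := by
    rw [normSq_apply]
    simp
    norm_num
  have m4 : √(4:ℝ) = 2 := by
    rw [show (4:ℝ) = 2 ^ 2 by norm_num]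
    exact Real.sqrt_sq (by norm_num)
  rw [Complex.norm_def] at v1 v2 v4 v5 v8
  rw [n1, Real.sqrt_one] at v1
  rw [n2] at v2
  rw [n4, m4] at v4
  rw [n5] at v5
  rw [n8] at v8
  rw [v1, v2, v4, v5, v8]
  have hpos : 0 ≤ ∫ χ in GG, (699 / 10 + 228 * J (1 * r χ) + 88 * J (√2 * r χ) +
      208 * J (2 * r χ) + 52 * J (√5 * r χ) + 86 * J (√8 * r χ)) ∂P := by
    refine integral_nonneg fun χ => ?_
    have := hPOS (r χ) (hr0 χ)
    unfold Pool.Agent.Helper16.RC.F at this
    show (0:ℝ) ≤ _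
    rw [one_mul]
    exact this
  have i0 : Integrable (fun _ : Om => (699 / 10 : ℝ)) (P.restrict GG) := integrable_const _
  have i1 : Integrable (fun χ : Om => 228 * J (1 * r χ)) (P.restrict GG) := (hJi 1).const_mul _
  have i2 : Integrable (fun χ : Om => 88 * J (√2 * r χ)) (P.restrict GG) := (hJi _).const_mul _
  have i4 : Integrable (fun χ : Om => 208 * J (2 * r χ)) (P.restrict GG) := (hJi _).const_mul _
  have i5 : Integrable (fun χ : Om => 52 * J (√5 * r χ)) (P.restrict GG) := (hJi _).const_mul _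
  have i8 : Integrable (fun χ : Om => 86 * J (√8 * r χ)) (P.restrict GG) := (hJi _).const_mul _
  have j1 : Integrable (fun χ : Om => 699 / 10 + 228 * J (1 * r χ)) (P.restrict GG) := i0.add i1
  have j2 : Integrable (fun χ : Om => 699 / 10 + 228 * J (1 * r χ) + 88 * J (√2 * r χ))
    (P.restrict GG) := j1.add i2
  have j4 : Integrable (fun χ : Om => 699 / 10 + 228 * J (1 * r χ) + 88 * J (√2 * r χ) +
    208 * J (2 * r χ)) (P.restrict GG) := j2.add i4
  have j5 : Integrable (fun χ : Om => 699 / 10 + 228 * J (1 * r χ) + 88 * J (√2 * r χ) +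
    208 * J (2 * r χ) + 52 * J (√5 * r χ)) (P.restrict GG) := j4.add i5
  rw [integral_add j5 i8, integral_add j4 i5, integral_add j2 i4, integral_add j1 i2,
    integral_add i0 i1,
    integral_const_mul, integral_const_mul, integral_const_mul, integral_const_mul,
    integral_const_mul, integral_const] at hpos
  have hle : (P.restrict GG).real Set.univ ≤ 1 := by
    rw [measureReal_restrict_apply_univ]
    exact measureReal_le_one
  rw [smul_eq_mul] at hpos
  have h0 : 0 ≤ (P.restrict GG).real Set.univ := measureReal_nonneg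
  linarith

theorem st_G2 (hBO3 : ST_BO3) (hBO4 : ST_BO4) (hUNI : ST_UNI) (hG0 : ST_G0)
    (hPOS : Pool.Agent.Helper16.RC.ST_POS) : ST_G2 := by
  intro F hF
  obtain ⟨Λ, hΛ, hΛ2⟩ := hBO3 F hF
  obtain ⟨P, hP, hP2⟩ := hBO4 Λ hΛ
  have hE : ∀ z, ∫ χ, ev z χ ∂P = ((F (normSq z) : ℝ) : ℂ) := by
    intro z
    have h1 : (∫ χ, ev z χ ∂P).re = F (normSq z) := by
      have := (integral_re (ev_integrable P z) : ∫ χ, RCLike.re (ev z χ) ∂P = _)
      rw [← (hΛ2 z).1, ← (hP2 z).1]
      exact this.symm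
    have h2 : (∫ χ, ev z χ ∂P).im = 0 := by
      have := (integral_im (ev_integrable P z) : ∫ χ, RCLike.im (ev z χ) ∂P = _)
      rw [← (hΛ2 z).2, ← (hP2 z).2]
      exact this.symm
    apply Complex.ext
    · rw [h1, ofReal_re]
    · rw [h2, ofReal_im]
  have hI : InvC P := by
    intro u hu
    have hm := st_MS u
    have : IsProbabilityMeasure (P.map fun χ : Om => χ.mulShift u) :=
      Measure.isProbabilityMeasure_map hm.aemeasurable
    refine hUNI _ _ this hP fun x => ?_
    rw [integral_map hm.aemeasurable (meas_ev x).aestronglyMeasurable]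
    simp only [ev_mulShift]
    rw [hE, hE, normSq_mul]
    have : normSq u = 1 := by
      rw [normSq_eq_norm_sq, hu, one_pow]
    rw [this, one_mul]
  exact g2_core hG0 hPOS F P hP hI hE

/-- G2 with helper91's `random_char` -/
theorem st_G2' (hG0 : ST_G0) (hPOS : Pool.Agent.Helper16.RC.ST_POS) : ST_G2 := by
  intro F hF
  obtain ⟨P, hP, hI, hE, -⟩ := Pool.Agent.Helper91.RG.random_char hF
  exact g2_core hG0 hPOS F P hP hI hE

/-! ### row FIN -/

/-- the pattern seen from `z` in the direction `u` -/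
def pat (c : ℂ → Bool) (z u : ℂ) (k i : ℕ) : Bool := c (z + u * ((k : ℂ) + (i : ℂ) * I))

theorem st_FIN (hG2 : ST_G2) : ST_FIN := by
  intro c
  by_contra hne
  have hno : ∀ m n : ℕ, (m = 1 ∨ m = 2) → (n = 1 ∨ n = 2) →
      ¬ Pool.Agent.Helper16.RA.Mono c m n := fun m n hm hn h => hne ⟨m, n, hm, hn, h⟩
  obtain ⟨h, hb, hloc, hcert⟩ := Pool.Agent.Helper16.RC.st_CERT
  obtain ⟨F, hF, hW⟩ := Pool.Agent.Helper91.RA.st_PHI c
  have hval : ∀ z u : ℂ, ‖u‖ = 1 → Pool.Agent.Helper16.RC.Vld (pat c z u) := by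
    intro z u hu k m i n hm hn hk hi hmono
    refine hno m n hm hn ⟨z + u * ((k : ℂ) + (i : ℂ) * I), u, hu, ?_, ?_, ?_⟩
    · have := hmono.1
      unfold pat at this
      rw [← this]
      congr 1
      push_cast
      ring
    · have := hmono.2.1
      unfold pat at this
      rw [← this]
      congr 1
      push_cast
      ring
    · have := hmono.2.2
      unfold pat at this
      rw [← this]
      congr 1
      push_cast
      ring
  -- the potential
  let g : ℂ → ℂ → ℝ := fun z u => -((h (pat c z u 0) (pat c z u 1) : ℤ) : ℝ)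
  have hg : ∃ C : ℝ, ∀ z u, |g z u| ≤ C := by
    refine ⟨512, fun z u => ?_⟩
    show |-((h (pat c z u 0) (pat c z u 1) : ℤ) : ℝ)| ≤ 512
    rw [abs_neg]
    exact_mod_cast hb _ _
  let L : List (ℂ × ℂ × ℝ) := Pool.Agent.Helper16.RC.Lst.map fun t =>
    ((t.2.1 : ℂ) * I, (t.1 : ℂ) + (t.2.2.1 : ℂ) * I, (t.2.2.2 : ℝ))
  have hmain := hW L (-70) g hg ?_
  · have h2 := hG2 F hF
    have h3 : (L.map fun t => t.2.2 * F (normSq (t.2.1 - t.1))).sum =
        228 * F 1 + 88 * F 2 + 208 * F 4 + 52 * F 5 + 86 * F 8 := by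
      have hns : ∀ k i j : ℕ, normSq ((k : ℂ) + (j : ℂ) * I - (i : ℂ) * I) =
          (k : ℝ) ^ 2 + ((j : ℝ) - i) ^ 2 := by
        intro k i j
        rw [normSq_apply]
        simp
        ring
      have h4 : (L.map fun t => t.2.2 * F (normSq (t.2.1 - t.1))) =
          Pool.Agent.Helper16.RC.Lst.map fun t =>
            (t.2.2.2 : ℝ) * F ((t.1 : ℝ) ^ 2 + ((t.2.2.1 : ℝ) - t.2.1) ^ 2) := by
        rw [List.map_map]
        refine List.map_congr_left fun t _ => ?_
        show (t.2.2.2 : ℝ) * F (normSq ((t.1 : ℂ) + (t.2.2.1 : ℂ) * I - (t.2.1 : ℂ) * I)) = _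
        rw [hns]
      rw [h4]
      unfold Pool.Agent.Helper16.RC.Lst
      simp only [List.map_cons, List.map_nil, List.sum_cons, List.sum_nil]
      norm_num
      ring
    rw [h3] at hmain
    linarith
  · intro z u hu
    have h1 := hcert _ (hval z u hu)
    have h2 : (L.map fun t => t.2.2 * (Pool.Agent.Helper16.RA.sgr (c (z + u * t.1)) *
        Pool.Agent.Helper16.RA.sgr (c (z + u * t.2.1)))).sum =
        ((Pool.Agent.Helper16.RC.Qf (pat c z u) : ℤ) : ℝ) := by
      have hsg : ∀ b : Bool, Pool.Agent.Helper16.RA.sgr b = ((Pool.Agent.Helper16.RC.sg b : ℤ) : ℝ) := by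
        intro b
        cases b <;> simp [Pool.Agent.Helper16.RA.sgr, Pool.Agent.Helper16.RC.sg]
      unfold Pool.Agent.Helper16.RC.Qf
      rw [Int.cast_list_sum, List.map_map, List.map_map]
      congr 1
      refine List.map_congr_left fun t _ => ?_
      show (t.2.2.2 : ℝ) * (Pool.Agent.Helper16.RA.sgr (c (z + u * ((t.2.1 : ℂ) * I))) *
        Pool.Agent.Helper16.RA.sgr (c (z + u * ((t.1 : ℂ) + (t.2.2.1 : ℂ) * I)))) =
        ((t.2.2.2 * (Pool.Agent.Helper16.RC.sg (pat c z u 0 t.2.1) *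
          Pool.Agent.Helper16.RC.sg (pat c z u t.1 t.2.2.1)) : ℤ) : ℝ)
      rw [hsg, hsg]
      unfold pat
      push_cast
      rw [zero_add]
    have h3 : g (z + u) u = -((h (pat c z u 1) (pat c z u 2) : ℤ) : ℝ) := by
      have h5 : ∀ k : ℕ, pat c (z + u) u k = pat c z u (k + 1) := by
        intro k
        funext i
        unfold pat
        congr 1
        push_cast
        ring
      show -((h (pat c (z + u) u 0) (pat c (z + u) u 1) : ℤ) : ℝ) = _
      rw [h5, h5]
    rw [h2, h3]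
    show _ ≤ -70 + (-((h (pat c z u 0) (pat c z u 1) : ℤ) : ℝ) - _)
    have h4 : ((Pool.Agent.Helper16.RC.Qf (pat c z u) + h (pat c z u 0) (pat c z u 1) -
      h (pat c z u 1) (pat c z u 2) : ℤ) : ℝ) ≤ -70 := by exact_mod_cast h1
    push_cast at h4
    linarith

end Pool.Agent.Helper59.RG
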