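import Pool.Agent.Helper67.RG.EStmts

/-! # Module CORE: root data of the special pairs -/

namespace Pool.Agent.Helper59.RG

open Polynomial Pool.Agent.Helper67.RG

namespace CORE

variable {ν : ℕ} {D : Pell ν} (T : Tower D)

theorem coe_aeval (P : MvPolynomial (Fin 12) ℂ) :
    ((MvPolynomial.aeval T.x P : T.B) : Om[X]) = MvPolynomial.aeval T.xx P := by
  have h : T.B.val.comp (MvPolynomial.aeval T.x) = MvPolynomial.aeval T.xx := by
    apply MvPolynomial.algHom_ext
    intro i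
    simp only [AlgHom.comp_apply, MvPolynomial.aeval_X]
    rfl
  exact DFunLike.congr_fun h P

theorem lam_ne (D : Pell ν) : D.lam 1 - D.lam 0 ≠ 0 := by
  intro h
  have := D.inj (sub_eq_zero.mp h)
  exact absurd this (by decide)

/-- `s = X²` as a quadratic polynomial in the `x i` -/
noncomputable def sP (D : Pell ν) : MvPolynomial (Fin 12) ℂ :=
  MvPolynomial.C (D.lam 1 - D.lam 0)⁻¹ *
    (MvPolynomial.X 0 ^ 2 - MvPolynomial.X 1 ^ 2)

/-- `t = τ X²` as a quadratic polynomial in the `x i` -/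
noncomputable def tP (D : Pell ν) : MvPolynomial (Fin 12) ℂ :=
  MvPolynomial.C (D.lam 1 - D.lam 0)⁻¹ *
    (MvPolynomial.C (D.lam 1) * MvPolynomial.X 0 ^ 2 -
      MvPolynomial.C (D.lam 0) * MvPolynomial.X 1 ^ 2)

theorem sP_hom (D : Pell ν) : (sP D).IsHomogeneous 2 := by
  have h1 : (MvPolynomial.X 0 ^ 2 - MvPolynomial.X 1 ^ 2 :
      MvPolynomial (Fin 12) ℂ).IsHomogeneous 2 := by
    refine MvPolynomial.IsHomogeneous.sub ?_ ?_
    · exact MvPolynomial.isHomogeneous_X_pow 0 2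
    · exact MvPolynomial.isHomogeneous_X_pow 1 2
  have := (MvPolynomial.isHomogeneous_C (Fin 12) (D.lam 1 - D.lam 0)⁻¹).mul h1
  rwa [zero_add] at this

theorem tP_hom (D : Pell ν) : (tP D).IsHomogeneous 2 := by
  have h1 : (MvPolynomial.C (D.lam 1) * MvPolynomial.X 0 ^ 2 -
      MvPolynomial.C (D.lam 0) * MvPolynomial.X 1 ^ 2 :
      MvPolynomial (Fin 12) ℂ).IsHomogeneous 2 := by
    refine MvPolynomial.IsHomogeneous.sub ?_ ?_
    · have := (MvPolynomial.isHomogeneous_C (Fin 12) (D.lam 1)).mul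
        (MvPolynomial.isHomogeneous_X_pow (R := ℂ) 0 2)
      rwa [zero_add] at this
    · have := (MvPolynomial.isHomogeneous_C (Fin 12) (D.lam 0)).mul
        (MvPolynomial.isHomogeneous_X_pow (R := ℂ) 1 2)
      rwa [zero_add] at this
  have := (MvPolynomial.isHomogeneous_C (Fin 12) (D.lam 1 - D.lam 0)⁻¹).mul h1
  rwa [zero_add] at this

theorem algMap (c : ℂ) : algebraMap ℂ Om[X] c = C (algebraMap ℂ Om c) := rfl

theorem xx_sq (i : Fin 12) : T.xx i ^ 2 = C (tau - algebraMap ℂ Om (D.lam i)) * X ^ 2 := by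
  rw [Tower.xx, monomial_pow, T.hr, ← C_mul_X_pow_eq_monomial]

theorem lam_inv (D : Pell ν) : (algebraMap ℂ Om (D.lam 1) - algebraMap ℂ Om (D.lam 0)) ≠ 0 := by
  rw [← map_sub, Ne, map_eq_zero_iff _ (algebraMap ℂ Om).injective]
  exact lam_ne D

theorem aeval_sP : MvPolynomial.aeval T.xx (sP D) = (X ^ 2 : Om[X]) := by
  have h := lam_inv D
  rw [sP, map_mul, MvPolynomial.aeval_C, map_sub, map_pow, map_pow, MvPolynomial.aeval_X,
    MvPolynomial.aeval_X, xx_sq, xx_sq, algMap, map_inv₀, map_sub]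
  rw [← sub_mul, ← C_sub, ← mul_assoc, ← C_mul]
  rw [show (algebraMap ℂ Om (D.lam 1) - algebraMap ℂ Om (D.lam 0))⁻¹ *
    (tau - algebraMap ℂ Om (D.lam 0) - (tau - algebraMap ℂ Om (D.lam 1))) = 1 by
      field_simp; ring]
  rw [C_1, one_mul]

theorem aeval_tP : MvPolynomial.aeval T.xx (tP D) = (C tau * X ^ 2 : Om[X]) := by
  have h := lam_inv D
  rw [tP, map_mul, MvPolynomial.aeval_C, map_sub, map_mul, map_mul, MvPolynomial.aeval_C,
    MvPolynomial.aeval_C, map_pow, map_pow, MvPolynomial.aeval_X,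
    MvPolynomial.aeval_X, xx_sq, xx_sq, algMap, algMap, algMap, map_inv₀, map_sub]
  rw [← mul_assoc, ← mul_assoc, ← C_mul, ← C_mul, ← sub_mul, ← C_sub, ← mul_assoc, ← C_mul]
  rw [show (algebraMap ℂ Om (D.lam 1) - algebraMap ℂ Om (D.lam 0))⁻¹ *
    (algebraMap ℂ Om (D.lam 1) * (tau - algebraMap ℂ Om (D.lam 0)) -
      algebraMap ℂ Om (D.lam 0) * (tau - algebraMap ℂ Om (D.lam 1))) = tau by
      field_simp; ring]

/-- Homogenization of polynomials in `τ³`. -/
noncomputable def hom (D : Pell ν) (P : ℂ[X]) (n : ℕ) : MvPolynomial (Fin 12) ℂ :=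
  ∑ k ∈ Finset.range (n + 1), MvPolynomial.C (P.coeff k) * (tP D ^ (3 * k) *
    sP D ^ (3 * (n - k)))

theorem hom_hom (P : ℂ[X]) (n : ℕ) : (hom D P n).IsHomogeneous (6 * n) := by
  apply MvPolynomial.IsHomogeneous.sum
  intro k hk
  have hk' : k ≤ n := Nat.lt_succ_iff.mp (Finset.mem_range.mp hk)
  have h1 := (MvPolynomial.isHomogeneous_C (Fin 12) (P.coeff k)).mul
    (((tP_hom D).pow (3 * k)).mul ((sP_hom D).pow (3 * (n - k))))
  have h2 : 0 + (2 * (3 * k) + 2 * (3 * (n - k))) = 6 * n := by omega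
  rwa [h2] at h1

theorem aeval_hom (P : ℂ[X]) (n : ℕ) (hn : P.natDegree ≤ n) :
    MvPolynomial.aeval T.xx (hom D P n) = C (aeval (tau ^ 3) P) * X ^ (6 * n) := by
  rw [hom, map_sum]
  have h1 : ∀ k ∈ Finset.range (n + 1), MvPolynomial.aeval T.xx (MvPolynomial.C (P.coeff k) *
      (tP D ^ (3 * k) * sP D ^ (3 * (n - k)))) =
      C (algebraMap ℂ Om (P.coeff k) * (tau ^ 3) ^ k) * X ^ (6 * n) := by
    intro k hk
    have hk' : k ≤ n := Nat.lt_succ_iff.mp (Finset.mem_range.mp hk)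
    rw [map_mul, map_mul, map_pow, map_pow, MvPolynomial.aeval_C, aeval_sP, aeval_tP, algMap,
      C_mul, mul_pow, C_pow, C_pow, ← pow_mul, ← pow_mul, ← pow_mul]
    have h2 : X ^ (6 * n) = (X ^ (2 * (3 * k)) * X ^ (2 * (3 * (n - k))) : Om[X]) := by
      rw [← pow_add]
      congr 1
      omega
    rw [h2]
    ring
  rw [Finset.sum_congr rfl h1, ← Finset.sum_mul, ← map_sum]
  congr 2
  rw [aeval_eq_sum_range' (Nat.lt_succ_of_le hn)]
  refine Finset.sum_congr rfl fun k _ => ?_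
  rw [Algebra.smul_def]

theorem exists_hom (P : ℂ[X]) (n : ℕ) (hn : P.natDegree ≤ n) :
    ∃ Ph : MvPolynomial (Fin 12) ℂ, Ph.IsHomogeneous (6 * n) ∧
      MvPolynomial.aeval T.xx Ph = C (aeval (tau ^ 3) P) * X ^ (6 * n) :=
  ⟨hom D P n, hom_hom P n, aeval_hom T P n hn⟩

theorem prod_xx (I : Finset (Fin 12)) :
    ∏ i ∈ I, T.xx i = C (T.rr I) * X ^ I.card := by
  have : ∀ i, T.xx i = C (T.r i) * X := fun i => by
    rw [Tower.xx, ← C_mul_X_pow_eq_monomial, pow_one]
  simp only [this]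
  rw [Finset.prod_mul_distrib, Finset.prod_const, ← map_prod]
  rfl

theorem card_I1 : I1.card = 6 := by decide

theorem card_I2 : I2.card = 6 := by decide

theorem rr_sq (I : Finset (Fin 12)) (g : ℂ[X]) (h : g.comp (X ^ 3) = ∏ i ∈ I, (X - C (D.lam i))) :
    T.rr I ^ 2 = aeval (tau ^ 3) g := by
  have h1 : aeval tau (g.comp (X ^ 3)) = aeval (tau ^ 3) g := by
    rw [aeval_comp, map_pow, aeval_X]
  rw [← h1, h, map_prod, Tower.rr, ← Finset.prod_pow]
  refine Finset.prod_congr rfl fun i _ => ?_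
  rw [T.hr, map_sub, aeval_X, aeval_C]

theorem G_mul : T.G * T.G' = 1 := by
  have h1 := rr_sq T I1 D.f1 D.h1
  have h2 := rr_sq T I2 D.f2 D.h2
  have h3 : T.G * T.G' = aeval (tau ^ 3) D.p ^ 2 * T.rr I2 ^ 2 -
      aeval (tau ^ 3) D.q ^ 2 * T.rr I1 ^ 2 := by
    rw [Tower.G, Tower.G']
    ring
  rw [h3, h1, h2]
  have h4 := congrArg (aeval (tau ^ 3 : Om)) D.pq
  rw [map_sub, map_mul, map_mul, map_pow, map_pow, map_one] at h4
  rw [← h4]
  ring

/-- Polynomials with the values `G X^{6ν}` and `G' X^{6ν}`. -/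
theorem exists_G (D : Pell ν) (T : Tower D) : ∃ Gp Gm : MvPolynomial (Fin 12) ℂ,
    Gp.IsHomogeneous (6 * ν) ∧ Gm.IsHomogeneous (6 * ν) ∧
    MvPolynomial.aeval T.xx Gp = C T.G * X ^ (6 * ν) ∧
    MvPolynomial.aeval T.xx Gm = C T.G' * X ^ (6 * ν) := by
  obtain ⟨ph, hph, hph2⟩ := exists_hom T D.p (ν - 1) D.dp.le
  obtain ⟨qh, hqh, hqh2⟩ := exists_hom T D.q (ν - 1) D.dq.le
  have hν := D.hν
  have hX : ∀ I : Finset (Fin 12), I.card = 6 →
      (∏ i ∈ I, MvPolynomial.X i : MvPolynomial (Fin 12) ℂ).IsHomogeneous 6 := by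
    intro I hI
    have := MvPolynomial.IsHomogeneous.prod I (fun i => (MvPolynomial.X i : MvPolynomial (Fin 12) ℂ))
      (fun _ => 1) (fun i _ => MvPolynomial.isHomogeneous_X _ _)
    rwa [Finset.sum_const, hI, smul_eq_mul, mul_one] at this
  have h6 : 6 * (ν - 1) + 6 = 6 * ν := by omega
  have h1 := hph.mul (hX I2 card_I2)
  have h2 := hqh.mul (hX I1 card_I1)
  rw [h6] at h1 h2
  have e1 : MvPolynomial.aeval T.xx (ph * ∏ i ∈ I2, MvPolynomial.X i) =
      C (aeval (tau ^ 3) D.p * T.rr I2) * X ^ (6 * ν) := by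
    rw [map_mul, map_prod, hph2]
    simp only [MvPolynomial.aeval_X]
    rw [prod_xx, card_I2, ← h6, pow_add, C_mul]
    ring
  have e2 : MvPolynomial.aeval T.xx (qh * ∏ i ∈ I1, MvPolynomial.X i) =
      C (aeval (tau ^ 3) D.q * T.rr I1) * X ^ (6 * ν) := by
    rw [map_mul, map_prod, hqh2]
    simp only [MvPolynomial.aeval_X]
    rw [prod_xx, card_I1, ← h6, pow_add, C_mul]
    ring
  refine ⟨ph * ∏ i ∈ I2, MvPolynomial.X i + qh * ∏ i ∈ I1, MvPolynomial.X i,
    ph * ∏ i ∈ I2, MvPolynomial.X i - qh * ∏ i ∈ I1, MvPolynomial.X i, h1.add h2, h1.sub h2,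
    ?_, ?_⟩
  · rw [map_add, e1, e2, ← add_mul, ← C_add]
    rfl
  · rw [map_sub, e1, e2, ← sub_mul, ← C_sub]
    rfl

theorem G_ne : T.G ≠ 0 := left_ne_zero_of_mul_eq_one (G_mul T)

theorem w_ne : T.w ≠ 0 := by
  intro h
  have h1 := T.hw'
  have hν := D.hν
  rw [h, zero_pow (by omega)] at h1
  exact G_ne T h1.symm

theorem w_mem : T.w ∈ T.E 6 := by
  have h := T.mem_E (s := ∅) (i := 1) (m := 6) (by have := D.hν; omega) (by simp)
  simpa [Tower.rr] using h

theorem G'_mem : T.G' ∈ T.E 0 := by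
  have h1 := T.mem_E (s := I1) (i := 0) (m := 0) (by have := D.hν; omega) (by rw [card_I1])
  have h2 := T.mem_E (s := I2) (i := 0) (m := 0) (by have := D.hν; omega) (by rw [card_I2])
  rw [pow_zero, mul_one] at h1 h2
  rw [Tower.G']
  exact Submodule.sub_mem _ (T.smul_mem_E h2 (Tower.aeval_tau_mem _))
    (T.smul_mem_E h1 (Tower.aeval_tau_mem _))

theorem w_inv : T.w⁻¹ = T.G' * T.w ^ (ν - 1) := by
  have hν := D.hν
  have h1 : T.w ^ (ν - 1) * T.w = T.G := by
    rw [← pow_succ, ← T.hw']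
    congr 1
    omega
  have h2 : T.G' * T.w ^ (ν - 1) * T.w = 1 := by
    rw [mul_assoc, h1, mul_comm]
    exact G_mul T
  exact (eq_inv_of_mul_eq_one_left h2).symm

theorem w_inv_mem : T.w⁻¹ ∈ T.E 6 := by
  rw [w_inv]
  have h := T.mem_E (s := ∅) (i := ν - 1) (m := 6) (by have := D.hν; omega) (by simp)
  rw [Tower.rr, Finset.prod_empty, one_mul] at h
  have := T.E_mul (G'_mem T) h
  rwa [zero_add] at this

theorem mem_of_pow {z : Om} (hz : z ∈ T.E 6) {n : ℕ} (hn : 0 < n)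
    (P : MvPolynomial (Fin 12) ℂ)
    (h : MvPolynomial.aeval T.xx P = C (z ^ n) * X ^ (6 * n)) : C z * X ^ 6 ∈ T.B := by
  refine ⟨?_, fun m => ?_⟩
  · refine IsIntegral.of_pow hn ?_
    have h1 : (C z * X ^ 6 : Om[X]) ^ n = ((MvPolynomial.aeval T.x P : T.B) : Om[X]) := by
      rw [coe_aeval, h, mul_pow, C_pow, ← pow_mul]
    rw [h1]
    exact (MvPolynomial.aeval T.x P).2.1
  · rw [coeff_C_mul_X_pow]
    split_ifs with h
    · rw [h]
      exact hz
    · exact Submodule.zero_mem _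

theorem mul_mem_gr {m n : ℕ} {a b : T.B} (ha : a ∈ T.grB m) (hb : b ∈ T.grB n) :
    a * b ∈ T.grB (m + n) := by
  obtain ⟨z, hz⟩ := ha
  obtain ⟨z', hz'⟩ := hb
  exact ⟨z * z', by rw [Subalgebra.coe_mul, hz, hz', monomial_mul_monomial]⟩

theorem pow_mem_gr {m : ℕ} {a : T.B} (ha : a ∈ T.grB m) (n : ℕ) : a ^ n ∈ T.grB (m * n) := by
  obtain ⟨z, hz⟩ := ha
  exact ⟨z ^ n, by rw [Subalgebra.coe_pow, hz, monomial_pow]⟩

/-- The radical computation. -/
theorem rad (Gp Gm : T.B) (hGp : (Gp : Om[X]) = C T.G * X ^ (6 * ν))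
    (hGm : (Gm : Om[X]) = C T.G' * X ^ (6 * ν)) (I : Ideal T.B) (A k : ℕ)
    (h1 : MvPolynomial.aeval T.x (sP D) ^ A * Gp ^ k ∈ I)
    (h2 : MvPolynomial.aeval T.x (sP D) ^ A * Gm ^ k ∈ I)
    (h3 : MvPolynomial.aeval T.x (tP D) ^ A * Gp ^ k ∈ I)
    (h4 : MvPolynomial.aeval T.x (tP D) ^ A * Gm ^ k ∈ I) (z : T.B) (hz : z = T.x 0 ∨ z = T.x 1) :
    ∃ K : ℕ, z ^ K ∈ I := by
  have hν := D.hν
  have hs : ((MvPolynomial.aeval T.x (sP D) : T.B) : Om[X]) = X ^ 2 := by
    rw [coe_aeval, aeval_sP]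
  have ht : ((MvPolynomial.aeval T.x (tP D) : T.B) : Om[X]) = C tau * X ^ 2 := by
    rw [coe_aeval, aeval_tP]
  obtain ⟨s, hsdef⟩ : ∃ s, s = MvPolynomial.aeval T.x (sP D) := ⟨_, rfl⟩
  obtain ⟨t, htdef⟩ : ∃ t, t = MvPolynomial.aeval T.x (tP D) := ⟨_, rfl⟩
  rw [← hsdef] at h1 h2 hs
  rw [← htdef] at h3 h4 ht
  have key : ∀ a b : T.B, a ^ A * b ^ k ∈ I → a * b ∈ I.radical := by
    intro a b hab
    refine ⟨A + k, ?_⟩
    have : (a * b) ^ (A + k) = a ^ k * b ^ A * (a ^ A * b ^ k) := by ring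
    rw [this]
    exact Ideal.mul_mem_left _ _ hab
  have k1 := key _ _ h1
  have k2 := key _ _ h2
  have k3 := key _ _ h3
  have k4 := key _ _ h4
  have hGG : Gp * Gm = s ^ (6 * ν) := by
    apply Subtype.ext
    rw [Subalgebra.coe_mul, Subalgebra.coe_pow, hGp, hGm, hs, ← pow_mul]
    have : (C T.G * X ^ (6 * ν) * (C T.G' * X ^ (6 * ν)) : Om[X]) =
        C (T.G * T.G') * (X ^ (6 * ν) * X ^ (6 * ν)) := by rw [C_mul]; ring
    rw [this, G_mul, C_1, one_mul, ← pow_add]
    congr 1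
    ring
  have hsr : s ∈ I.radical := by
    have h5 : s ^ (6 * ν + 1) ∈ I.radical := by
      rw [pow_succ, ← hGG]
      have : Gp * Gm * s = Gm * (s * Gp) := by ring
      rw [this]
      exact Ideal.mul_mem_left _ _ k1
    exact Ideal.mem_radical_of_pow_mem h5
  have hdeg : (D.f2 * D.p ^ 2).natDegree = 2 * ν := by
    have hp : D.p ≠ 0 := by
      intro h
      have := D.dp
      rw [h, natDegree_zero] at this
      omega
    rw [natDegree_mul D.m2.ne_zero (pow_ne_zero _ hp), natDegree_pow, D.d2, D.dp]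
    omega
  have hlead : (D.f2 * D.p ^ 2).coeff (2 * ν) ≠ 0 := by
    rw [← hdeg, coeff_natDegree, Ne, leadingCoeff_eq_zero]
    intro h
    rw [h, natDegree_zero] at hdeg
    omega
  have hE : (Gp + Gm) ^ 2 = 4 * (∑ k ∈ Finset.range (2 * ν + 1),
      algebraMap ℂ T.B ((D.f2 * D.p ^ 2).coeff k) * (t ^ (3 * k) * s ^ (3 * (2 * ν - k)))) := by
    have h5 : MvPolynomial.aeval T.x (hom D (D.f2 * D.p ^ 2) (2 * ν)) =
        ∑ k ∈ Finset.range (2 * ν + 1),
      algebraMap ℂ T.B ((D.f2 * D.p ^ 2).coeff k) * (t ^ (3 * k) * s ^ (3 * (2 * ν - k))) := by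
      rw [hom, map_sum]
      refine Finset.sum_congr rfl fun k _ => ?_
      rw [map_mul, map_mul, map_pow, map_pow, MvPolynomial.aeval_C, hsdef, htdef]
    rw [← h5]
    apply Subtype.ext
    have h6 : ((4 * MvPolynomial.aeval T.x (hom D (D.f2 * D.p ^ 2) (2 * ν)) : T.B) : Om[X]) =
        4 * MvPolynomial.aeval T.xx (hom D (D.f2 * D.p ^ 2) (2 * ν)) := by
      rw [← coe_aeval]
      rfl
    rw [h6, aeval_hom T _ _ hdeg.le, Subalgebra.coe_pow, Subalgebra.coe_add, hGp, hGm,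
      map_mul, map_pow, ← rr_sq T I2 D.f2 D.h2, ← add_mul, ← C_add]
    have h7 : T.G + T.G' = 2 * (aeval (tau ^ 3) D.p * T.rr I2) := by
      rw [Tower.G, Tower.G']
      ring
    rw [h7]
    have e : (X ^ (6 * (2 * ν)) : Om[X]) = X ^ (6 * ν) * X ^ (6 * ν) := by
      rw [← pow_add]
      congr 1
      ring
    rw [e, C_mul, C_mul, C_mul, C_pow, C_pow, show (C 2 : Om[X]) = 2 from rfl]
    ring
  have htr : t ∈ I.radical := by
    have h5 : t * (Gp + Gm) ^ 2 ∈ I.radical := by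
      have : t * (Gp + Gm) ^ 2 = (Gp + Gm) * (t * Gp) + (Gp + Gm) * (t * Gm) := by ring
      rw [this]
      exact Ideal.add_mem _ (Ideal.mul_mem_left _ _ k3) (Ideal.mul_mem_left _ _ k4)
    rw [hE, Finset.sum_range_succ, Nat.sub_self, mul_zero, pow_zero, mul_one] at h5
    have h6 : ∑ k ∈ Finset.range (2 * ν),
        algebraMap ℂ T.B ((D.f2 * D.p ^ 2).coeff k) * (t ^ (3 * k) * s ^ (3 * (2 * ν - k))) ∈
        I.radical := by
      refine Ideal.sum_mem _ fun k hk => ?_
      have hk' := Finset.mem_range.mp hk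
      refine Ideal.mul_mem_left _ _ (Ideal.mul_mem_left _ _ ?_)
      exact Ideal.pow_mem_of_mem _ hsr _ (by omega)
    obtain ⟨c, hc⟩ : ∃ c, c = (D.f2 * D.p ^ 2).coeff (2 * ν) := ⟨_, rfl⟩
    rw [← hc] at h5 hlead
    have h7 : algebraMap ℂ T.B (4 * c) * t ^ (3 * (2 * ν) + 1) ∈ I.radical := by
      have h8 := Ideal.sub_mem _ h5 (Ideal.mul_mem_left _ (t * 4) h6)
      have h9 : algebraMap ℂ T.B (4 * c) = 4 * algebraMap ℂ T.B c := by
        rw [map_mul, map_ofNat]
      rw [h9]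
      refine (Eq.mp (congrArg (fun a => a ∈ I.radical) ?_) h8)
      ring
    have h10 : t ^ (3 * (2 * ν) + 1) ∈ I.radical := by
      have h11 := Ideal.mul_mem_left _ (algebraMap ℂ T.B (4 * c)⁻¹) h7
      rw [← mul_assoc, ← map_mul, inv_mul_cancel₀ (mul_ne_zero (by norm_num) hlead), map_one,
        one_mul] at h11
      exact h11
    exact Ideal.mem_radical_of_pow_mem h10
  have hx : ∀ i, T.x i ∈ I.radical := by
    intro i
    have h5 : T.x i ^ 2 = t - algebraMap ℂ T.B (D.lam i) * s := by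
      apply Subtype.ext
      have h6 : ((t - algebraMap ℂ T.B (D.lam i) * s : T.B) : Om[X]) =
          (t : Om[X]) - algebraMap ℂ Om[X] (D.lam i) * s := rfl
      rw [h6, Subalgebra.coe_pow, hs, ht, algMap]
      change T.xx i ^ 2 = _
      rw [xx_sq, C_sub]
      ring
    apply Ideal.mem_radical_of_pow_mem (m := 2)
    rw [h5]
    exact Ideal.sub_mem _ htr (Ideal.mul_mem_left _ _ hsr)
  rcases hz with rfl | rfl
  · exact hx 0
  · exact hx 1

end CORE

open CORE in
theorem st_CORE : ST_CORE := by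
  intro ν D T N
  have hν := D.hν
  obtain ⟨Gp, Gm, hGp, hGm, eGp, eGm⟩ := exists_G D T
  have hw0 := w_ne T
  have hwp := mem_of_pow T (w_mem T) (n := ν) (by omega) Gp (by rw [eGp, T.hw'])
  have hwm := mem_of_pow T (w_inv_mem T) (n := ν) (by omega) Gm (by
    rw [eGm, inv_pow, T.hw', eq_comm]
    congr 2
    exact inv_eq_of_mul_eq_one_right (G_mul T))
  obtain ⟨wp, ewp⟩ : ∃ wp : T.B, (wp : Om[X]) = C T.w * X ^ 6 := ⟨⟨_, hwp⟩, rfl⟩
  obtain ⟨wm, ewm⟩ : ∃ wm : T.B, (wm : Om[X]) = C T.w⁻¹ * X ^ 6 := ⟨⟨_, hwm⟩, rfl⟩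
  have hs : ((MvPolynomial.aeval T.x (sP D) : T.B) : Om[X]) = X ^ 2 := by
    rw [coe_aeval, aeval_sP]
  have ht : ((MvPolynomial.aeval T.x (tP D) : T.B) : Om[X]) = C tau * X ^ 2 := by
    rw [coe_aeval, aeval_tP]
  have hpp : wp ^ ν = MvPolynomial.aeval T.x Gp := by
    apply Subtype.ext
    rw [coe_aeval, Subalgebra.coe_pow, ewp, eGp, mul_pow, ← C_pow, T.hw', ← pow_mul]
  have hmm : wm ^ ν = MvPolynomial.aeval T.x Gm := by
    apply Subtype.ext
    rw [coe_aeval, Subalgebra.coe_pow, ewm, eGm, mul_pow, ← C_pow, inv_pow, T.hw', ← pow_mul]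
    congr 2
    exact inv_eq_of_mul_eq_one_right (G_mul T)
  have hpm : wp * wm = MvPolynomial.aeval T.x (sP D) ^ 6 := by
    apply Subtype.ext
    rw [Subalgebra.coe_mul, Subalgebra.coe_pow, ewp, ewm, hs]
    have : (C T.w * X ^ 6 * (C T.w⁻¹ * X ^ 6) : Om[X]) = C (T.w * T.w⁻¹) * (X ^ 2) ^ 6 := by
      rw [C_mul]; ring
    rw [this, mul_inv_cancel₀ hw0, C_1, one_mul]
  -- the two families
  let uP : Bool → MvPolynomial (Fin 12) ℂ := fun b => if b then sP D else tP D
  let cP : Bool → MvPolynomial (Fin 12) ℂ := fun b => if b then Gp else Gm ^ (ν - 1)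
  let c : Bool → T.B := fun b => if b then wp else wm ^ (ν - 1)
  let dc : Bool → ℕ := fun b => if b then 6 else 6 * (ν - 1)
  have huP : ∀ b, (uP b).IsHomogeneous 2 := by
    intro b
    cases b
    · exact tP_hom D
    · exact sP_hom D
  have hcP : ∀ b, (cP b).IsHomogeneous (dc b * ν) := by
    intro b
    cases b
    · have := hGm.pow (ν - 1)
      have e : 6 * ν * (ν - 1) = 6 * (ν - 1) * ν := by ring
      rw [e] at this
      exact this
    · exact hGp
  have hcc : ∀ b, c b ^ ν = MvPolynomial.aeval T.x (cP b) := by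
    intro b
    cases b
    · change (wm ^ (ν - 1)) ^ ν = MvPolynomial.aeval T.x (Gm ^ (ν - 1))
      rw [map_pow, ← hmm, ← pow_mul, ← pow_mul, mul_comm]
    · exact hpp
  have hu_gr : ∀ b, MvPolynomial.aeval T.x (uP b) ∈ T.grB 2 := by
    intro b
    cases b
    · exact ⟨tau, by rw [← C_mul_X_pow_eq_monomial]; exact ht⟩
    · exact ⟨1, by rw [← C_mul_X_pow_eq_monomial, C_1, one_mul]; exact hs⟩
  have hwp_gr : wp ∈ T.grB 6 := ⟨T.w, by rw [← C_mul_X_pow_eq_monomial]; exact ewp⟩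
  have hwm_gr : wm ∈ T.grB 6 := ⟨T.w⁻¹, by rw [← C_mul_X_pow_eq_monomial]; exact ewm⟩
  have hc_gr : ∀ b, c b ∈ T.grB (dc b) := by
    intro b
    cases b
    · exact pow_mem_gr T hwm_gr _
    · exact hwp_gr
  have hu0 : ∀ b, MvPolynomial.aeval T.x (uP b) ≠ 0 := by
    intro b hb
    have htau : tau ≠ 0 := by
      rw [tau, Ne, map_eq_zero_iff _ (algebraMap (RatFunc ℂ) Om).injective]
      exact RatFunc.X_ne_zero
    cases b
    · have h1 : ((MvPolynomial.aeval T.x (tP D) : T.B) : Om[X]) = 0 := congrArg Subtype.val hb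
      rw [ht] at h1
      exact mul_ne_zero (by rwa [Ne, C_eq_zero]) (pow_ne_zero _ X_ne_zero) h1
    · have h1 : ((MvPolynomial.aeval T.x (sP D) : T.B) : Om[X]) = 0 := congrArg Subtype.val hb
      rw [hs] at h1
      exact pow_ne_zero _ X_ne_zero h1
  have hwp0 : wp ≠ 0 := by
    intro h
    have h1 : (wp : Om[X]) = 0 := congrArg Subtype.val h
    rw [ewp] at h1
    exact mul_ne_zero (by rwa [Ne, C_eq_zero]) (pow_ne_zero _ X_ne_zero) h1
  have hwm0 : wm ≠ 0 := by
    intro h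
    have h1 : (wm : Om[X]) = 0 := congrArg Subtype.val h
    rw [ewm] at h1
    exact mul_ne_zero (by rw [Ne, C_eq_zero]; exact inv_ne_zero hw0) (pow_ne_zero _ X_ne_zero) h1
  have hc0 : ∀ b, c b ≠ 0 := by
    intro b
    cases b
    · exact pow_ne_zero _ hwm0
    · exact hwp0
  refine ⟨{
    ι := Bool × Bool
    m := fun i => 2 * N + dc i.2
    hm := fun i => by omega
    a := fun i => MvPolynomial.aeval T.x (uP i.1) ^ N * c i.2
    ha := fun i => mul_mem_gr T (pow_mem_gr T (hu_gr i.1) N) (hc_gr i.2)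
    ha0 := fun i => mul_ne_zero (pow_ne_zero _ (hu0 _)) (hc0 _)
    P := fun i => uP i.1 ^ (N * ν) * cP i.2
    hP := fun i => by
      have := ((huP i.1).pow (N * ν)).mul (hcP i.2)
      have e : 2 * (N * ν) + dc i.2 * ν = (2 * N + dc i.2) * ν := by ring
      rw [e] at this
      exact this
    haP := fun i => by
      rw [map_mul, map_pow, mul_pow, hcc, ← pow_mul]
    prim := ?_ }, (true, true), N + 3, ?_, ?_⟩
  · rintro ⟨b1, b2⟩ z hz
    -- relations of the first kind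
    have hA : ∀ v : Bool, MvPolynomial.aeval T.x (uP v) ^ (N + N * ν) *
        MvPolynomial.aeval T.x (cP b2) ∈ Ideal.span
        {e : T.B | ∃ (j : Bool × Bool) (α β : ℕ) (π κ : MvPolynomial (Fin 12) ℂ), N ≤ α ∧ N ≤ β ∧
          α + (2 * N + dc b2) = β + (2 * N + dc j.2) ∧ π.IsHomogeneous α ∧ κ.IsHomogeneous β ∧
          MvPolynomial.aeval T.x π * (MvPolynomial.aeval T.x (uP b1) ^ N * c b2) =
            MvPolynomial.aeval T.x κ * (MvPolynomial.aeval T.x (uP j.1) ^ N * c j.2) ∧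
          e = MvPolynomial.aeval T.x π * MvPolynomial.aeval T.x (uP j.1 ^ (N * ν) * cP j.2)} := by
      intro v
      refine Ideal.subset_span ⟨(v, b2), 2 * N, 2 * N, uP v ^ N, uP b1 ^ N, by omega, by omega,
        rfl, (huP v).pow N, (huP b1).pow N, ?_, ?_⟩
      · rw [map_pow, map_pow]
        ring
      · rw [map_mul, map_pow, map_pow, pow_add]
        ring
    have hGpm : MvPolynomial.aeval T.x Gp * wm ^ (ν - 1) =
        MvPolynomial.aeval T.x (sP D) ^ (6 * (ν - 1)) * wp := by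
      rw [← hpp, pow_mul, ← hpm]
      have : wp ^ ν = wp * wp ^ (ν - 1) := by
        rw [← pow_succ']
        congr 1
        omega
      rw [this, mul_pow]
      ring
    have hGmp : MvPolynomial.aeval T.x Gm * wp =
        MvPolynomial.aeval T.x (sP D) ^ 6 * wm ^ (ν - 1) := by
      rw [← hmm, ← hpm]
      have : wm ^ ν = wm * wm ^ (ν - 1) := by
        rw [← pow_succ']
        congr 1
        omega
      rw [this]
      ring
    -- relations of the second kind
    cases b2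
    · have hB : ∀ v : Bool, MvPolynomial.aeval T.x (uP v) ^ (N + N * ν) *
          MvPolynomial.aeval T.x Gp ^ 2 ∈ Ideal.span
          {e : T.B | ∃ (j : Bool × Bool) (α β : ℕ) (π κ : MvPolynomial (Fin 12) ℂ), N ≤ α ∧ N ≤ β ∧
            α + (2 * N + dc false) = β + (2 * N + dc j.2) ∧ π.IsHomogeneous α ∧
            κ.IsHomogeneous β ∧
            MvPolynomial.aeval T.x π * (MvPolynomial.aeval T.x (uP b1) ^ N * c false) =
              MvPolynomial.aeval T.x κ * (MvPolynomial.aeval T.x (uP j.1) ^ N * c j.2) ∧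
            e = MvPolynomial.aeval T.x π *
              MvPolynomial.aeval T.x (uP j.1 ^ (N * ν) * cP j.2)} := by
        intro v
        refine Ideal.subset_span ⟨(v, true), 2 * N + 6 * ν, 2 * N + 2 * (6 * (ν - 1)),
          uP v ^ N * Gp, uP b1 ^ N * sP D ^ (6 * (ν - 1)), by omega, by omega,
          ?_, ((huP v).pow N).mul hGp, ((huP b1).pow N).mul ((sP_hom D).pow _), ?_, ?_⟩
        · change 2 * N + 6 * ν + (2 * N + 6 * (ν - 1)) = 2 * N + 2 * (6 * (ν - 1)) + (2 * N + 6)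
          omega
        · change MvPolynomial.aeval T.x (uP v ^ N * Gp) *
            (MvPolynomial.aeval T.x (uP b1) ^ N * wm ^ (ν - 1)) =
            MvPolynomial.aeval T.x (uP b1 ^ N * sP D ^ (6 * (ν - 1))) *
              (MvPolynomial.aeval T.x (uP v) ^ N * wp)
          rw [map_mul, map_mul, map_pow, map_pow, map_pow]
          linear_combination (MvPolynomial.aeval T.x (uP v) ^ N *
            MvPolynomial.aeval T.x (uP b1) ^ N) * hGpm
        · change _ = MvPolynomial.aeval T.x (uP v ^ N * Gp) *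
            MvPolynomial.aeval T.x (uP v ^ (N * ν) * Gp)
          rw [map_mul, map_mul, map_pow, map_pow, pow_add]
          ring
      have hup1 : ∀ v : Bool, MvPolynomial.aeval T.x (uP v) ^ (N + N * ν) *
          MvPolynomial.aeval T.x Gp ^ ν ∈ Ideal.span
          {e : T.B | ∃ (j : Bool × Bool) (α β : ℕ) (π κ : MvPolynomial (Fin 12) ℂ), N ≤ α ∧ N ≤ β ∧
            α + (2 * N + dc false) = β + (2 * N + dc j.2) ∧ π.IsHomogeneous α ∧
            κ.IsHomogeneous β ∧
            MvPolynomial.aeval T.x π * (MvPolynomial.aeval T.x (uP b1) ^ N * c false) =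
              MvPolynomial.aeval T.x κ * (MvPolynomial.aeval T.x (uP j.1) ^ N * c j.2) ∧
            e = MvPolynomial.aeval T.x π *
              MvPolynomial.aeval T.x (uP j.1 ^ (N * ν) * cP j.2)} := by
        intro v
        have := Ideal.mul_mem_left _ (MvPolynomial.aeval T.x Gp ^ (ν - 2)) (hB v)
        refine (Eq.mp (congrArg (fun a => a ∈ Ideal.span _) ?_) this)
        have e : MvPolynomial.aeval T.x Gp ^ ν =
            MvPolynomial.aeval T.x Gp ^ (ν - 2) * MvPolynomial.aeval T.x Gp ^ 2 := by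
          rw [← pow_add]
          congr 1
          omega
        rw [e]
        ring
      have hup2 : ∀ v : Bool, MvPolynomial.aeval T.x (uP v) ^ (N + N * ν) *
          MvPolynomial.aeval T.x Gm ^ ν ∈ Ideal.span
          {e : T.B | ∃ (j : Bool × Bool) (α β : ℕ) (π κ : MvPolynomial (Fin 12) ℂ), N ≤ α ∧ N ≤ β ∧
            α + (2 * N + dc false) = β + (2 * N + dc j.2) ∧ π.IsHomogeneous α ∧
            κ.IsHomogeneous β ∧
            MvPolynomial.aeval T.x π * (MvPolynomial.aeval T.x (uP b1) ^ N * c false) =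
              MvPolynomial.aeval T.x κ * (MvPolynomial.aeval T.x (uP j.1) ^ N * c j.2) ∧
            e = MvPolynomial.aeval T.x π *
              MvPolynomial.aeval T.x (uP j.1 ^ (N * ν) * cP j.2)} := by
        intro v
        have := Ideal.mul_mem_left _ (MvPolynomial.aeval T.x Gm) (hA v)
        refine (Eq.mp (congrArg (fun a => a ∈ Ideal.span _) ?_) this)
        have e : MvPolynomial.aeval T.x Gm ^ ν =
            MvPolynomial.aeval T.x Gm * MvPolynomial.aeval T.x (Gm ^ (ν - 1)) := by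
          rw [map_pow, ← pow_succ']
          congr 1
          omega
        rw [e]
        change _ * (_ * MvPolynomial.aeval T.x (Gm ^ (ν - 1))) = _
        ring
      exact rad T (MvPolynomial.aeval T.x Gp) (MvPolynomial.aeval T.x Gm)
        (by rw [coe_aeval, eGp]) (by rw [coe_aeval, eGm]) _ (N + N * ν) ν
        (hup1 true) (hup2 true) (hup1 false) (hup2 false) z hz
    · have hB : ∀ v : Bool, MvPolynomial.aeval T.x (uP v) ^ (N + N * ν) *
          MvPolynomial.aeval T.x Gm ^ ν ∈ Ideal.span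
          {e : T.B | ∃ (j : Bool × Bool) (α β : ℕ) (π κ : MvPolynomial (Fin 12) ℂ), N ≤ α ∧ N ≤ β ∧
            α + (2 * N + dc true) = β + (2 * N + dc j.2) ∧ π.IsHomogeneous α ∧
            κ.IsHomogeneous β ∧
            MvPolynomial.aeval T.x π * (MvPolynomial.aeval T.x (uP b1) ^ N * c true) =
              MvPolynomial.aeval T.x κ * (MvPolynomial.aeval T.x (uP j.1) ^ N * c j.2) ∧
            e = MvPolynomial.aeval T.x π *
              MvPolynomial.aeval T.x (uP j.1 ^ (N * ν) * cP j.2)} := by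
        intro v
        refine Ideal.subset_span ⟨(v, false), 2 * N + 6 * ν, 2 * N + 2 * 6,
          uP v ^ N * Gm, uP b1 ^ N * sP D ^ 6, by omega, by omega,
          ?_, ((huP v).pow N).mul hGm, ((huP b1).pow N).mul ((sP_hom D).pow _), ?_, ?_⟩
        · change 2 * N + 6 * ν + (2 * N + 6) = 2 * N + 2 * 6 + (2 * N + 6 * (ν - 1))
          omega
        · change MvPolynomial.aeval T.x (uP v ^ N * Gm) *
            (MvPolynomial.aeval T.x (uP b1) ^ N * wp) =
            MvPolynomial.aeval T.x (uP b1 ^ N * sP D ^ 6) *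
              (MvPolynomial.aeval T.x (uP v) ^ N * wm ^ (ν - 1))
          rw [map_mul, map_mul, map_pow, map_pow, map_pow]
          linear_combination (MvPolynomial.aeval T.x (uP v) ^ N *
            MvPolynomial.aeval T.x (uP b1) ^ N) * hGmp
        · change _ = MvPolynomial.aeval T.x (uP v ^ N * Gm) *
            MvPolynomial.aeval T.x (uP v ^ (N * ν) * Gm ^ (ν - 1))
          have e : MvPolynomial.aeval T.x Gm ^ ν =
              MvPolynomial.aeval T.x Gm * MvPolynomial.aeval T.x Gm ^ (ν - 1) := by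
            rw [← pow_succ']
            congr 1
            omega
          rw [map_mul, map_mul, map_pow, map_pow, map_pow, pow_add, e]
          ring
      have hup1 : ∀ v : Bool, MvPolynomial.aeval T.x (uP v) ^ (N + N * ν) *
          MvPolynomial.aeval T.x Gp ^ ν ∈ Ideal.span
          {e : T.B | ∃ (j : Bool × Bool) (α β : ℕ) (π κ : MvPolynomial (Fin 12) ℂ), N ≤ α ∧ N ≤ β ∧
            α + (2 * N + dc true) = β + (2 * N + dc j.2) ∧ π.IsHomogeneous α ∧
            κ.IsHomogeneous β ∧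
            MvPolynomial.aeval T.x π * (MvPolynomial.aeval T.x (uP b1) ^ N * c true) =
              MvPolynomial.aeval T.x κ * (MvPolynomial.aeval T.x (uP j.1) ^ N * c j.2) ∧
            e = MvPolynomial.aeval T.x π *
              MvPolynomial.aeval T.x (uP j.1 ^ (N * ν) * cP j.2)} := by
        intro v
        have := Ideal.mul_mem_left _ (MvPolynomial.aeval T.x Gp ^ (ν - 1)) (hA v)
        refine (Eq.mp (congrArg (fun a => a ∈ Ideal.span _) ?_) this)
        have e : MvPolynomial.aeval T.x Gp ^ ν =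
            MvPolynomial.aeval T.x Gp ^ (ν - 1) * MvPolynomial.aeval T.x Gp := by
          rw [← pow_succ]
          congr 1
          omega
        rw [e]
        change _ * (_ * MvPolynomial.aeval T.x Gp) = _
        ring
      exact rad T (MvPolynomial.aeval T.x Gp) (MvPolynomial.aeval T.x Gm)
        (by rw [coe_aeval, eGp]) (by rw [coe_aeval, eGm]) _ (N + N * ν) ν
        (hup1 true) (hB true) (hup1 false) (hB false) z hz
  · change 2 * N + 6 = 2 * (N + 3)
    ring
  · change ((MvPolynomial.aeval T.x (sP D) ^ N * wp : T.B) : Om[X]) = _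
    rw [Subalgebra.coe_mul, Subalgebra.coe_pow, hs, ewp, ← C_mul_X_pow_eq_monomial, ← pow_mul]
    have : (X ^ (2 * (N + 3)) : Om[X]) = X ^ (2 * N) * X ^ 6 := by
      rw [← pow_add]
      congr 1
    rw [this]
    ring

end Pool.Agent.Helper59.RG
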