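import Pool.Agent.Helper59.RG.GA
import Pool.Agent.Helper35.RC.CIRC

/-!
# Project RG: row G1
-/

set_option autoImplicit false

open MeasureTheory Complex
open scoped ComplexConjugate
open Pool.Agent.Helper1.RG
open Pool.Agent.Helper16.RC (J)

namespace Pool.Agent.Helper59.RG

theorem QU_QI {u : ℂ} (hu : u ∈ QU) : u ∈ QI := hu.1

theorem QU_inv {u : ℂ} (hu : u ∈ QU) : u⁻¹ ∈ QU := ⟨QI_inv hu.1, by rw [norm_inv, hu.2, inv_one]⟩

theorem ZI_QI {y : ℂ} (hy : y ∈ ZI) : y ∈ QI := by
  obtain ⟨a, b, rfl⟩ := hy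
  exact ⟨a, b, by push_cast; rfl⟩

/-- `GG` is invariant under rational units -/
theorem GG_mulShift {u : ℂ} (hu : u ∈ QU) (χ : Om) : χ.mulShift u ∈ GG ↔ χ ∈ GG := by
  have key : ∀ {v : ℂ}, v ∈ QU → ∀ χ : Om, χ ∈ GG → χ.mulShift v ∈ GG := by
    rintro v hv χ ⟨T, hT⟩
    refine ⟨conj v * T, fun x hx => ?_⟩
    rw [AddChar.mulShift_apply, hT _ (QI_mul hv.1 hx), e_mul_left]
  refine ⟨fun h => ?_, key hu χ⟩
  have h1 := key (QU_inv hu) _ h
  have h2 : (χ.mulShift u).mulShift u⁻¹ = χ := by
    have hu0 : u ≠ 0 := by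
      intro h0
      have := hu.2
      rw [h0, norm_zero] at this
      exact zero_ne_one this
    ext x
    rw [AddChar.mulShift_apply, AddChar.mulShift_apply, mul_inv_cancel_left₀ hu0]
  rwa [h2] at h1

theorem J_continuous : Continuous J := by
  unfold Pool.Agent.Helper16.RC.J
  refine continuous_const.mul ?_
  refine intervalIntegral.continuous_parametric_intervalIntegral_of_continuous' ?_ _ _
  exact Real.continuous_cos.comp (continuous_fst.mul (Real.continuous_sin.comp continuous_snd))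

theorem J_abs_le (s : ℝ) : |J s| ≤ 1 := by
  unfold Pool.Agent.Helper16.RC.J
  have h1 : ‖∫ θ in (0:ℝ)..(2 * Real.pi), Real.cos (s * Real.sin θ)‖ ≤
      1 * |2 * Real.pi - 0| := by
    refine intervalIntegral.norm_integral_le_of_norm_le_const fun x _ => ?_
    rw [Real.norm_eq_abs]
    exact Real.abs_cos_le_one _
  rw [abs_mul, abs_inv]
  have h2 : |2 * Real.pi| = 2 * Real.pi := abs_of_pos (by positivity)
  rw [sub_zero, one_mul, h2, Real.norm_eq_abs] at h1
  rw [h2]
  have h3 : 0 < 2 * Real.pi := by positivity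
  rw [inv_mul_le_iff₀ h3, mul_one]
  exact h1

/-- the average over the circle -/
theorem circ_avg (y t : ℂ) :
    (2 * Real.pi)⁻¹ * ∫ θ in (0:ℝ)..(2 * Real.pi),
      Real.cos ((conj t * (Complex.exp (θ * I) * y)).re) = J (‖y‖ * ‖t‖) := by
  have h := Pool.Agent.Helper16.RC.st_CIRC y (t / (2 * Real.pi))
  have h2 : 2 * Real.pi * (‖y‖ * ‖t / (2 * Real.pi : ℂ)‖) = ‖y‖ * ‖t‖ := by
    rw [norm_div]
    have : ‖(2 * Real.pi : ℂ)‖ = 2 * Real.pi := by
      rw [norm_mul, Complex.norm_real, Real.norm_eq_abs, abs_of_pos Real.pi_pos]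
      norm_num
    rw [this]
    have hp := Real.pi_ne_zero
    field_simp
  rw [h2] at h
  rw [← h]
  congr 2
  funext θ
  congr 1
  have h3 : (t / (2 * Real.pi : ℂ)).re = t.re / (2 * Real.pi) := by
    have : (2 * Real.pi : ℂ) = ((2 * Real.pi : ℝ) : ℂ) := by push_cast; ring
    rw [this, div_ofReal_re]
  have h4 : (t / (2 * Real.pi : ℂ)).im = t.im / (2 * Real.pi) := by
    have : (2 * Real.pi : ℂ) = ((2 * Real.pi : ℝ) : ℂ) := by push_cast; ring
    rw [this, div_ofReal_im]
  rw [h3, h4, mul_re, conj_re, conj_im]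
  have hp := Real.pi_ne_zero
  field_simp
  ring

theorem st_G1 : ST_G1 := by
  intro P hP hI
  obtain ⟨hGm, τ, hτ, hτ2⟩ := meas_set QI QI_countable QI_dense
  have hGm' : MeasurableSet GG := hGm
  refine ⟨fun χ => ‖τ χ‖, hτ.norm, fun χ => norm_nonneg _, ?_⟩
  -- the function `f`
  let g : ℂ → Om → ℝ := fun w χ => Real.cos ((conj (τ χ) * w).re)
  let f : ℂ → ℝ := fun w => ∫ χ in GG, g w χ ∂P
  have hgm : ∀ w, Measurable (g w) := by
    intro w
    refine Real.measurable_cos.comp (measurable_re.comp ?_)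
    exact (continuous_conj.measurable.comp hτ).mul_const w
  have hgb : ∀ w χ, ‖g w χ‖ ≤ 1 := fun w χ => by
    rw [Real.norm_eq_abs]
    exact Real.abs_cos_le_one _
  have hf : ∀ w ∈ QI, ∫ χ in GG, (ev w χ).re ∂P = f w := by
    intro w hw
    refine setIntegral_congr_fun hGm' fun χ hχ => ?_
    show (ev w χ).re = Real.cos _
    rw [← e_re, ← hτ2 χ hχ w hw]
    rfl
  have hfc : Continuous f := by
    refine continuous_of_dominated (F := g) (bound := fun _ => 1)
      (fun w => (hgm w).aestronglyMeasurable) (fun w => Filter.Eventually.of_forall (hgb w))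
      (integrable_const 1) (Filter.Eventually.of_forall fun χ => ?_)
    exact Real.continuous_cos.comp (continuous_re.comp (continuous_const.mul continuous_id))
  have hfu : ∀ u ∈ QU, ∀ y ∈ QI, f (u * y) = f y := by
    intro u hu y hy
    rw [← hf _ (QI_mul hu.1 hy), ← hf y hy]
    have h1 := hI u hu.2
    have h2 : ∫ χ in GG, (ev y χ).re ∂P = ∫ χ in GG, (ev y χ).re ∂(P.map fun χ : Om => χ.mulShift u) := by
      rw [h1]
    have hm : Measurable fun χ : Om => (ev y χ).re := measurable_re.comp (meas_ev y)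
    rw [h2, setIntegral_map hGm' hm.aestronglyMeasurable (st_MS u).aemeasurable]
    have h3 : (fun χ : Om => χ.mulShift u) ⁻¹' GG = GG := by
      ext χ
      exact GG_mulShift hu χ
    rw [h3]
    refine setIntegral_congr_fun hGm' fun χ _ => ?_
    show (ev (u * y) χ).re = (ev y (χ.mulShift u)).re
    rw [ev_mulShift]
  intro y hy
  have hyQ := ZI_QI hy
  have hfc1 : ∀ u : ℂ, ‖u‖ = 1 → f (u * y) = f y := by
    intro u hu
    have hcl : IsClosed {u : ℂ | f (u * y) = f y} :=
      isClosed_eq (hfc.comp (continuous_id.mul continuous_const)) continuous_const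
    have hsub : QU ⊆ {u : ℂ | f (u * y) = f y} := fun u hu => hfu u hu y hyQ
    exact hcl.closure_subset_iff.2 hsub (units_dense u hu)
  rw [hf y hyQ]
  -- average over the circle
  have h1 : f y = (2 * Real.pi)⁻¹ * ∫ θ in (0:ℝ)..(2 * Real.pi), f (Complex.exp (θ * I) * y) := by
    have h2 : (fun θ : ℝ => f (Complex.exp (θ * I) * y)) = fun _ => f y := by
      funext θ
      exact hfc1 _ (norm_exp_ofReal_mul_I θ)
    rw [h2, intervalIntegral.integral_const, smul_eq_mul, sub_zero, ← mul_assoc,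
      inv_mul_cancel₀ (by positivity), one_mul]
  have hfin : IsFiniteMeasure ((volume : Measure ℝ).restrict (Set.uIoc 0 (2 * Real.pi))) := by
    refine ⟨?_⟩
    rw [Measure.restrict_apply_univ, Set.uIoc_of_le (by positivity), Real.volume_Ioc]
    exact ENNReal.ofReal_lt_top
  have hint : Integrable (Function.uncurry fun (θ : ℝ) (χ : Om) =>
      g (Complex.exp (θ * I) * y) χ)
      ((volume.restrict (Set.uIoc 0 (2 * Real.pi))).prod (P.restrict GG)) := by
    refine Integrable.of_bound (C := 1) ?_ (Filter.Eventually.of_forall fun p => hgb _ _)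
    refine Measurable.aestronglyMeasurable ?_
    refine Real.measurable_cos.comp (measurable_re.comp ?_)
    refine ((continuous_conj.measurable.comp (hτ.comp measurable_snd)).mul ?_)
    refine Measurable.mul_const ?_ y
    refine Complex.measurable_exp.comp (Measurable.mul_const ?_ I)
    exact measurable_ofReal.comp measurable_fst
  rw [h1]
  have h3 : ∫ θ in (0:ℝ)..(2 * Real.pi), f (Complex.exp (θ * I) * y) =
      ∫ χ in GG, (∫ θ in (0:ℝ)..(2 * Real.pi), g (Complex.exp (θ * I) * y) χ) ∂P := by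
    exact intervalIntegral_integral_swap hint
  rw [h3, ← integral_const_mul]
  refine integral_congr_ae (Filter.Eventually.of_forall fun χ => ?_)
  exact circ_avg y (τ χ)

end Pool.Agent.Helper59.RG
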