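import Pool.Agent.Helper1.RG.Defs

/-!
# Project RG: Gaussian rationals, measurability (rows MS, MF)
-/

set_option autoImplicit false

open MeasureTheory Complex
open scoped ComplexConjugate
open Pool.Agent.Helper1.RG

namespace Pool.Agent.Helper59.RG

theorem QI_mul {z w : ℂ} (hz : z ∈ QI) (hw : w ∈ QI) : z * w ∈ QI := by
  obtain ⟨a, b, rfl⟩ := hz
  obtain ⟨c, d, rfl⟩ := hw
  refine ⟨a * c - b * d, a * d + b * c, ?_⟩
  push_cast
  linear_combination (b : ℂ) * d * I_sq

theorem QI_conj {z : ℂ} (hz : z ∈ QI) : (starRingEnd ℂ) z ∈ QI := by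
  obtain ⟨a, b, rfl⟩ := hz
  refine ⟨a, -b, ?_⟩
  simp

theorem QI_rat (a : ℚ) : (a : ℂ) ∈ QI := ⟨a, 0, by simp⟩

theorem QI_inv {z : ℂ} (hz : z ∈ QI) : z⁻¹ ∈ QI := by
  obtain ⟨a, b, rfl⟩ := hz
  have h : ((a : ℂ) + (b : ℂ) * I)⁻¹ =
      (starRingEnd ℂ) ((a : ℂ) + (b : ℂ) * I) * (((a ^ 2 + b ^ 2)⁻¹ : ℚ) : ℂ) := by
    rw [Complex.inv_def]
    congr 1
    have : normSq ((a : ℂ) + (b : ℂ) * I) = ((a ^ 2 + b ^ 2 : ℚ) : ℝ) := by
      rw [normSq_apply]
      simp
      ring
    rw [this]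
    push_cast
    ring
  rw [h]
  exact QI_mul (QI_conj ⟨a, b, rfl⟩) (QI_rat _)

theorem QI_countable : QI.Countable := by
  have : QI = Set.range (fun p : ℚ × ℚ => (p.1 : ℂ) + (p.2 : ℂ) * I) := by
    ext z
    constructor
    · rintro ⟨a, b, h⟩
      exact ⟨(a, b), h.symm⟩
    · rintro ⟨⟨a, b⟩, h⟩
      exact ⟨a, b, h.symm⟩
  rw [this]
  exact Set.countable_range _

theorem QI_dense : Dense QI := by
  intro z
  rw [Metric.mem_closure_iff]
  intro ε hε
  obtain ⟨a, ha⟩ := exists_rat_near z.re (half_pos hε)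
  obtain ⟨b, hb⟩ := exists_rat_near z.im (half_pos hε)
  refine ⟨(a : ℂ) + (b : ℂ) * I, ⟨a, b, rfl⟩, ?_⟩
  rw [dist_eq_norm]
  have h : z - ((a : ℂ) + (b : ℂ) * I) = ((z.re - a : ℝ) : ℂ) + ((z.im - b : ℝ) : ℂ) * I := by
    apply Complex.ext <;> simp
  rw [h]
  refine (norm_add_le _ _).trans_lt ?_
  rw [norm_mul, norm_I, mul_one, Complex.norm_real, Complex.norm_real, Real.norm_eq_abs,
    Real.norm_eq_abs]
  linarith

/-- the rational units are dense in the unit circle -/
theorem units_dense (u : ℂ) (hu : ‖u‖ = 1) : u ∈ closure QU := by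
  -- `u = z / conj z`
  have h0 : ∃ z : ℂ, ‖z‖ = 1 ∧ z ^ 2 = u := by
    refine ⟨Complex.exp ((u.arg / 2 : ℝ) * I), ?_, ?_⟩
    · exact norm_exp_ofReal_mul_I _
    · rw [← Complex.exp_nat_mul]
      have : ((2 : ℕ) : ℂ) * (((u.arg / 2 : ℝ) : ℂ) * I) = u.arg * I := by
        push_cast
        ring
      rw [this]
      have h1 := Complex.norm_mul_exp_arg_mul_I u
      rw [hu] at h1
      simpa using h1
  obtain ⟨z, hz1, hz2⟩ := h0
  have hz0 : z ≠ 0 := by
    intro h
    rw [h, norm_zero] at hz1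
    exact zero_ne_one hz1
  have hc : ContinuousAt (fun w : ℂ => w / (starRingEnd ℂ) w) z := by
    refine ContinuousAt.div continuousAt_id continuous_conj.continuousAt ?_
    simpa using hz0
  have hf : z / (starRingEnd ℂ) z = u := by
    have h1 : z * (starRingEnd ℂ) z = 1 := by
      rw [mul_conj, normSq_eq_norm_sq, hz1]
      norm_num
    have h2 : (starRingEnd ℂ) z ≠ 0 := by simpa using hz0
    rw [div_eq_iff h2, ← hz2]
    rw [sq, mul_assoc, h1, mul_one]
  rw [mem_closure_iff_nhds]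
  intro t ht
  rw [← hf] at ht
  have h1 := hc ht
  rw [Filter.mem_map] at h1
  have h2 : {w : ℂ | w ≠ 0} ∈ nhds z := isOpen_ne.mem_nhds hz0
  have h3 := Filter.inter_mem h1 h2
  obtain ⟨w, hw1, hw2⟩ := QI_dense.inter_nhds_nonempty h3
  refine ⟨w / (starRingEnd ℂ) w, hw2.1, ?_, ?_⟩
  · rw [div_eq_mul_inv]
    exact QI_mul hw1 (QI_inv (QI_conj hw1))
  · rw [norm_div, RCLike.norm_conj, div_self]
    exact norm_ne_zero_iff.2 hw2.2

/-! ### the characters `e T` -/

theorem e_coe (T z : ℂ) : ((e T z : Circle) : ℂ) = Complex.exp ((((conj T * z).re : ℝ) : ℂ) * I) := by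
  rw [e, Circle.coe_exp]

theorem e_re (T z : ℂ) : ((e T z : Circle) : ℂ).re = Real.cos ((conj T * z).re) := by
  rw [e_coe, exp_ofReal_mul_I_re]

theorem e_mul_left (T u z : ℂ) : e T (u * z) = e (conj u * T) z := by
  unfold e
  congr 2
  rw [map_mul, conj_conj]
  ring

theorem continuous_e_right (T : ℂ) : Continuous (fun z => e T z) := by
  unfold e
  exact Circle.exp.continuous.comp (continuous_re.comp (continuous_const.mul continuous_id))

theorem continuous_e_left (z : ℂ) : Continuous (fun T => e T z) := by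
  unfold e
  exact Circle.exp.continuous.comp (continuous_re.comp
    (continuous_conj.mul continuous_const))

/-- `T` is determined by `e T` on a dense set -/
theorem e_inj {D : Set ℂ} (hD : Dense D) {T T' : ℂ} (h : ∀ z ∈ D, e T z = e T' z) : T = T' := by
  have h1 : (fun z => e T z) = fun z => e T' z :=
    Continuous.ext_on hD (continuous_e_right T) (continuous_e_right T') h
  by_contra hne
  have hs : T - T' ≠ 0 := sub_ne_zero.2 hne
  have h2 := congrFun h1 (Real.pi / conj (T - T'))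
  have hc : conj (T - T') ≠ 0 := (map_ne_zero _).2 hs
  simp only [e] at h2
  have h3 : Circle.exp ((conj T * (Real.pi / conj (T - T'))).re -
      (conj T' * (Real.pi / conj (T - T'))).re) = 1 := by
    rw [sub_eq_add_neg, Circle.exp_add, Circle.exp_neg, h2, mul_inv_cancel]
  have h4 : (conj T * (Real.pi / conj (T - T'))).re -
      (conj T' * (Real.pi / conj (T - T'))).re = Real.pi := by
    rw [← sub_re, ← sub_mul, ← map_sub, mul_div_cancel₀ _ hc]
    simp
  rw [h4] at h3
  have h5 := congrArg (fun z : Circle => (z : ℂ)) h3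
  simp at h5
  norm_num at h5

/-! ### measurability -/

theorem meas_ev (x : ℂ) : Measurable (ev x) := by
  have h1 : Measurable (fun (χ : Om) (y : (Set.univ : Set ℂ)) => ev (y : ℂ) χ) :=
    comap_measurable _
  exact (measurable_pi_apply (⟨x, trivial⟩ : (Set.univ : Set ℂ))).comp h1

theorem ev_mulShift (u x : ℂ) (χ : Om) : ev x (χ.mulShift u) = ev (u * x) χ := by
  simp [ev]

theorem st_MS : ST_MS := by
  intro u
  refine measurable_comap_iff.2 ?_
  refine measurable_pi_lambda _ fun x => ?_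
  have : (fun χ : Om => ev (x : ℂ) (χ.mulShift u)) = ev (u * x) := by
    funext χ
    exact ev_mulShift u x χ
  exact this ▸ meas_ev (u * x)

/-- the set of characters that are continuous on a countable dense set -/
theorem meas_set (D : Set ℂ) (hc : D.Countable) (hd : Dense D) :
    MeasurableSet {χ : Om | ∃ T, ∀ z ∈ D, χ z = e T z} ∧
    ∃ τ : Om → ℂ, Measurable τ ∧ ∀ χ : Om, (∃ T, ∀ z ∈ D, χ z = e T z) →
      ∀ z ∈ D, χ z = e (τ χ) z := by
  have := hc.to_subtype
  let E : ℂ → (D → ℂ) := fun T z => ((e T z : Circle) : ℂ)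
  have hE1 : Measurable E := by
    refine measurable_pi_lambda _ fun z => ?_
    exact (continuous_subtype_val.comp (continuous_e_left (z : ℂ))).measurable
  have hE2 : Function.Injective E := by
    intro T T' h
    refine e_inj hd fun z hz => ?_
    exact Subtype.ext (congrFun h ⟨z, hz⟩)
  have hE : MeasurableEmbedding E := hE1.measurableEmbedding hE2
  let R : Om → (D → ℂ) := fun χ z => ev (z : ℂ) χ
  have hR : Measurable R := measurable_pi_lambda _ fun z => meas_ev _
  have hset : {χ : Om | ∃ T, ∀ z ∈ D, χ z = e T z} = R ⁻¹' (Set.range E) := by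
    ext χ
    constructor
    · rintro ⟨T, hT⟩
      refine ⟨T, ?_⟩
      funext z
      show ((e T z : Circle) : ℂ) = ev (z : ℂ) χ
      rw [← hT z z.2, ev]
    · rintro ⟨T, hT⟩
      refine ⟨T, fun z hz => ?_⟩
      exact Subtype.ext (congrFun hT ⟨z, hz⟩).symm
  refine ⟨hset ▸ hR hE.measurableSet_range, ?_⟩
  obtain ⟨g, hg, hgE⟩ := hE.exists_measurable_extend measurable_id (fun _ => ⟨0⟩)
  refine ⟨g ∘ R, hg.comp hR, ?_⟩
  rintro χ ⟨T, hT⟩ z hz
  have h1 : R χ = E T := by
    funext z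
    show ev (z : ℂ) χ = ((e T z : Circle) : ℂ)
    rw [← hT z z.2, ev]
  have h2 : g (R χ) = T := by
    rw [h1]
    exact congrFun hgE T
  show χ z = e (g (R χ)) z
  rw [h2]
  exact hT z hz

/-! ### `ℤ[i][1/(2-i)]` is dense and countable -/

theorem norm_gb : ‖gb‖ = √5 := by
  have h : normSq gb = 5 := by
    rw [gb, normSq_apply]
    simp
    norm_num
  rw [Complex.norm_def, h]

theorem gb_ne : gb ≠ 0 := by
  intro h
  have := norm_gb
  rw [h, norm_zero] at this
  have h5 : (0:ℝ) < √5 := Real.sqrt_pos.2 (by norm_num)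
  linarith

theorem ZI_countable : ZI.Countable := by
  have : ZI = Set.range (fun p : ℤ × ℤ => (p.1 : ℂ) + (p.2 : ℂ) * I) := by
    ext z
    constructor
    · rintro ⟨a, b, h⟩
      exact ⟨(a, b), h.symm⟩
    · rintro ⟨⟨a, b⟩, h⟩
      exact ⟨a, b, h.symm⟩
  rw [this]
  exact Set.countable_range _

theorem ZI_near (c : ℂ) : ∃ w ∈ ZI, ‖c - w‖ ≤ 1 := by
  refine ⟨(round c.re : ℤ) + (round c.im : ℤ) * I, ⟨_, _, rfl⟩, ?_⟩
  have h : c - (((round c.re : ℤ) : ℂ) + ((round c.im : ℤ) : ℂ) * I) =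
      ((c.re - round c.re : ℝ) : ℂ) + ((c.im - round c.im : ℝ) : ℂ) * I := by
    apply Complex.ext <;> simp
  rw [h]
  refine (norm_add_le _ _).trans ?_
  rw [norm_mul, norm_I, mul_one, Complex.norm_real, Complex.norm_real, Real.norm_eq_abs,
    Real.norm_eq_abs]
  have h1 := abs_sub_round c.re
  have h2 := abs_sub_round c.im
  linarith

theorem OP_countable : OP.Countable := by
  have h : OP ⊆ ⋃ j : ℕ, (fun w : ℂ => w / gb ^ j) '' ZI := by
    rintro z ⟨j, hz⟩
    refine Set.mem_iUnion.2 ⟨j, gb ^ j * z, hz, ?_⟩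
    exact mul_div_cancel_left₀ z (pow_ne_zero _ gb_ne)
  exact (Set.countable_iUnion fun j => ZI_countable.image _).mono h

theorem OP_dense : Dense OP := by
  intro c
  rw [Metric.mem_closure_iff]
  intro ε hε
  have h5 : (1:ℝ) < √5 := by
    rw [Real.lt_sqrt (by norm_num)]
    norm_num
  obtain ⟨j, hj⟩ := pow_unbounded_of_one_lt (1 / ε) h5
  obtain ⟨w, hw, hcw⟩ := ZI_near (gb ^ j * c)
  have hg : gb ^ j ≠ 0 := pow_ne_zero _ gb_ne
  refine ⟨w / gb ^ j, ⟨j, ?_⟩, ?_⟩
  · rwa [mul_div_cancel₀ _ hg]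
  · rw [dist_eq_norm]
    have h1 : c - w / gb ^ j = (gb ^ j * c - w) / gb ^ j := by
      field_simp
    rw [h1, norm_div, norm_pow, norm_gb]
    have h2 : 0 < √5 ^ j := by positivity
    rw [div_lt_iff₀ h2]
    rw [div_lt_iff₀ hε] at hj
    linarith [mul_comm ε (√5 ^ j)]

theorem mOP_dense (m : ℕ) (hm : 1 ≤ m) : Dense ((fun z : ℂ => (m : ℂ) * z) '' OP) := by
  have hm0 : (m : ℂ) ≠ 0 := by
    exact_mod_cast (by omega : m ≠ 0)
  have h1 : Function.Surjective (fun z : ℂ => (m : ℂ) * z) := fun w =>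
    ⟨w / m, mul_div_cancel₀ w hm0⟩
  exact h1.denseRange.dense_image (continuous_const.mul continuous_id) OP_dense

theorem st_MF : ST_MF := by
  constructor
  · intro m hm
    have h := (meas_set ((fun z : ℂ => (m : ℂ) * z) '' OP) (OP_countable.image _)
      (mOP_dense m hm)).1
    have h2 : Fm m = {χ : Om | ∃ T, ∀ z ∈ (fun z : ℂ => (m : ℂ) * z) '' OP, χ z = e T z} := by
      ext χ
      constructor
      · rintro ⟨T, hT⟩
        refine ⟨T, ?_⟩
        rintro _ ⟨z, hz, rfl⟩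
        exact hT z hz
      · rintro ⟨T, hT⟩
        exact ⟨T, fun z hz => hT _ ⟨z, hz, rfl⟩⟩
    rw [h2]
    exact h
  · exact (meas_set QI QI_countable QI_dense).1

end Pool.Agent.Helper59.RG
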